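import Pool.Agent.Helper13.FR.Stmts

/-! Module VEC: sums of products with values in a normed space. -/

set_option autoImplicit false

namespace Pool.Agent.Helper13.FR

open Finset Filter Pool.Agent.Helper16.MD

lemma vec_one (F : Type) [NormedAddCommGroup F] [NormedSpace ℂ F] (n Λ a N : ℕ)
    (f : ℕ → ℂ) (ω : ℕ → F) (B : ℝ) (hB : ∀ t, ‖ω t‖ ≤ B) :
    ‖∑ x ∈ Icc 1 N, f x • ω ((x + a) / (n * Λ))‖ ≤ B * ∑ t ∈ range (N + a + 1),
      ‖∑ x ∈ (Icc 1 N).filter (fun x => (x + a) / (n * Λ) = t), f x‖ := by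
  have h1 : ∑ x ∈ Icc 1 N, f x • ω ((x + a) / (n * Λ)) = ∑ t ∈ range (N + a + 1),
      (∑ x ∈ (Icc 1 N).filter (fun x => (x + a) / (n * Λ) = t), f x) • ω t := by
    have hm : ∀ x ∈ Icc 1 N, (x + a) / (n * Λ) ∈ range (N + a + 1) := by
      intro x hx
      rw [Finset.mem_Icc] at hx
      rw [Finset.mem_range]
      have := Nat.div_le_self (x + a) (n * Λ)
      omega
    rw [← Finset.sum_fiberwise_of_maps_to hm]
    refine Finset.sum_congr rfl fun t _ => ?_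
    rw [Finset.sum_smul]
    refine Finset.sum_congr rfl fun x hx => ?_
    rw [(Finset.mem_filter.mp hx).2]
  rw [h1, Finset.mul_sum]
  refine (norm_sum_le _ _).trans (Finset.sum_le_sum fun t _ => ?_)
  rw [norm_smul, mul_comm]
  exact mul_le_mul_of_nonneg_right (hB t) (norm_nonneg _)

theorem st_VEC (hUNF : ST_UNF) : ST_VEC := by
  intro D η hη
  have hD : (0 : ℝ) < (D : ℝ) + 1 := by positivity
  obtain ⟨n₀, h0⟩ := hUNF (η / ((D : ℝ) + 1)) (by positivity)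
  refine ⟨n₀, fun n hn => ?_⟩
  obtain ⟨Λ₀, h1⟩ := h0 n hn
  refine ⟨Λ₀, fun Λ hΛ => ?_⟩
  obtain ⟨N₀, h2⟩ := h1 Λ hΛ
  refine ⟨N₀, ?_⟩
  intro N a φ G hN hb hφ hG F _ _ ω B hB
  have hB0 : 0 ≤ B := (norm_nonneg _).trans (hB 0 0)
  have h3 : ∑ x ∈ Icc 1 N, ((ArithmeticFunction.moebius x : ℤ) : ℂ) • ∑ i ∈ range D,
      (φ i x * G i ((x + a) / n)) • ω i ((x + a) / (n * Λ)) =
      ∑ i ∈ range D, ∑ x ∈ Icc 1 N, (((ArithmeticFunction.moebius x : ℤ) : ℂ) *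
        (φ i x * G i ((x + a) / n))) • ω i ((x + a) / (n * Λ)) := by
    rw [Finset.sum_comm]
    refine Finset.sum_congr rfl fun x _ => ?_
    rw [Finset.smul_sum]
    refine Finset.sum_congr rfl fun i _ => ?_
    rw [smul_smul]
  rw [h3]
  have h4 : ∀ i ∈ range D, ‖∑ x ∈ Icc 1 N, (((ArithmeticFunction.moebius x : ℤ) : ℂ) *
        (φ i x * G i ((x + a) / n))) • ω i ((x + a) / (n * Λ))‖ ≤
        B * (η / ((D : ℝ) + 1) * N) := by
    intro i _
    refine (vec_one F n Λ a N (fun x => ((ArithmeticFunction.moebius x : ℤ) : ℂ) *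
        (φ i x * G i ((x + a) / n))) (ω i) B (hB i)).trans ?_
    exact mul_le_mul_of_nonneg_left (h2 N a (φ i) (G i) hN (hb i) (hφ i) (hG i)) hB0
  refine (norm_sum_le _ _).trans ((Finset.sum_le_sum h4).trans ?_)
  rw [Finset.sum_const, Finset.card_range, nsmul_eq_mul]
  have h5 : (D : ℝ) * (η / ((D : ℝ) + 1)) ≤ η := by
    rw [← mul_div_assoc, div_le_iff₀ hD]
    nlinarith
  have h6 : 0 ≤ B * (N : ℝ) := by positivity
  calc (D : ℝ) * (B * (η / ((D : ℝ) + 1) * N)) = ((D : ℝ) * (η / ((D : ℝ) + 1))) * (B * N) := by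
        ring
    _ ≤ η * (B * N) := mul_le_mul_of_nonneg_right h5 h6
    _ = η * B * N := by ring

end Pool.Agent.Helper13.FR
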